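import Mathlib

/-!
# An extremal multidimensional (0,1)-matrix whose deficiency is not the reciprocal of an integer

The example has dimension `10` and order `2`: its unity entries are the winning coalitions of the
weighted majority game with weights `53,50,46,40,32,29,16,13,9,4` and quota `147`.
-/

set_option autoImplicit false

namespace Pool.Agent.Results.MP_1f9c83_co.DeficiencyNotReciprocal

open Finset

/-- `K` is a polyplex in the `d`-dimensional (0,1)-matrix `A` of order `n`: it is nonnegative,
vanishes outside the unity entries of `A`, and its sum over every hyperplane is at most `1`. -/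
structure IsPolyplex {d n : ℕ} (A : (Fin d → Fin n) → Bool) (K : (Fin d → Fin n) → ℝ) : Prop where
  nonneg : ∀ α, 0 ≤ K α
  supp : ∀ α, A α = false → K α = 0
  le_one : ∀ (i : Fin d) (j : Fin n), ∑ α ∈ univ.filter (fun α => α i = j), K α ≤ 1

/-- the weight of an array -/
def weight {d n : ℕ} (K : (Fin d → Fin n) → ℝ) : ℝ := ∑ α, K α

/-- `K` is a polydiagonal in `A`: a polyplex whose sum over every hyperplane equals `1`. -/
def IsPolydiagonal {d n : ℕ} (A : (Fin d → Fin n) → Bool) (K : (Fin d → Fin n) → ℝ) : Prop :=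
  IsPolyplex A K ∧ ∀ (i : Fin d) (j : Fin n), ∑ α ∈ univ.filter (fun α => α i = j), K α = 1

/-- `A` is extremal: it has no polydiagonal, but replacing any single zero entry by `1` gives a
matrix that has a polydiagonal. -/
def Extremal {d n : ℕ} (A : (Fin d → Fin n) → Bool) : Prop :=
  (¬ ∃ K, IsPolydiagonal A K) ∧
    ∀ α, A α = false → ∃ K, IsPolydiagonal (Function.update A α true) K

/-- the deficiency of `A`: `n` minus the largest weight of a polyplex in `A` -/
noncomputable def deficiency {d n : ℕ} (A : (Fin d → Fin n) → Bool) : ℝ :=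
  (n : ℝ) - sSup {w : ℝ | ∃ K, IsPolyplex A K ∧ weight K = w}

/-- the weights -/
def wv : Fin 10 → ℕ := ![53, 50, 46, 40, 32, 29, 16, 13, 9, 4]

/-- the total weight of a coalition -/
def wt (α : Fin 10 → Fin 2) : ℕ := ∑ i, if α i = 1 then wv i else 0

/-- the matrix -/
def A : (Fin 10 → Fin 2) → Bool := fun α => decide (147 ≤ wt α)

theorem no146 : ∀ b0 b1 b2 b3 b4 b5 b6 b7 b8 b9 : Bool,
    (if b0 = true then 53 else 0) + (if b1 = true then 50 else 0) + (if b2 = true then 46 else 0) +
    (if b3 = true then 40 else 0) + (if b4 = true then 32 else 0) + (if b5 = true then 29 else 0) +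
    (if b6 = true then 16 else 0) + (if b7 = true then 13 else 0) + (if b8 = true then 9 else 0) +
    (if b9 = true then 4 else 0) ≠ 146 := by
  decide

theorem wt_ne (α : Fin 10 → Fin 2) : wt α ≠ 146 := by
  have h := no146 (decide (α 0 = 1)) (decide (α 1 = 1)) (decide (α 2 = 1)) (decide (α 3 = 1))
    (decide (α 4 = 1)) (decide (α 5 = 1)) (decide (α 6 = 1)) (decide (α 7 = 1))
    (decide (α 8 = 1)) (decide (α 9 = 1))
  simp only [decide_eq_true_eq] at h
  intro h2
  apply h
  rw [← h2]
  unfold wt wv
  simp [Fin.sum_univ_succ]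
  ring

/-- the complement -/
def co {d : ℕ} (α : Fin d → Fin 2) : Fin d → Fin 2 := fun i => 1 - α i

theorem two_cases (x : Fin 2) : x = 0 ∨ x = 1 := by
  fin_cases x
  · left; rfl
  · right; rfl

theorem wt_co (α : Fin 10 → Fin 2) : wt α + wt (co α) = 292 := by
  unfold wt
  rw [← sum_add_distrib]
  have : ∀ i : Fin 10, ((if α i = 1 then wv i else 0) + if co α i = 1 then wv i else 0) = wv i := by
    intro i
    unfold co
    rcases two_cases (α i) with h | h <;> rw [h] <;> simp
  rw [sum_congr rfl (fun i _ => this i)]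
  rfl

theorem A_co (α : Fin 10 → Fin 2) (h : A α = false) : A (co α) = true := by
  unfold A at h ⊢
  rw [decide_eq_false_iff_not] at h
  rw [decide_eq_true_iff]
  have h1 := wt_ne α
  have h2 := wt_co α
  omega

/-- the key inequality -/
theorem key (K : (Fin 10 → Fin 2) → ℝ) (hK : IsPolyplex A K) : 147 * weight K ≤ 292 := by
  have h1 : 147 * weight K ≤ ∑ α, K α * (wt α : ℝ) := by
    unfold weight
    rw [mul_sum]
    refine sum_le_sum fun α _ => ?_
    by_cases h : A α = false
    · rw [hK.supp α h]
      simp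
    · have h2 : 147 ≤ wt α := by
        unfold A at h
        simpa using h
      have h3 : (147 : ℝ) ≤ (wt α : ℝ) := by exact_mod_cast h2
      have h4 := hK.nonneg α
      nlinarith
  have h2 : ∑ α, K α * (wt α : ℝ) =
      ∑ i, (wv i : ℝ) * ∑ α ∈ univ.filter (fun α : Fin 10 → Fin 2 => α i = 1), K α := by
    have : ∀ α : Fin 10 → Fin 2, K α * (wt α : ℝ) =
        ∑ i, if α i = 1 then (wv i : ℝ) * K α else 0 := by
      intro α
      unfold wt
      push_cast
      rw [mul_sum]
      refine sum_congr rfl fun i _ => ?_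
      split_ifs
      · ring
      · simp
    rw [sum_congr rfl (fun α _ => this α), sum_comm]
    refine sum_congr rfl fun i _ => ?_
    rw [mul_sum, sum_filter]
  have h3 : ∑ i, (wv i : ℝ) * ∑ α ∈ univ.filter (fun α : Fin 10 → Fin 2 => α i = 1), K α ≤
      ∑ i, (wv i : ℝ) * 1 := by
    refine sum_le_sum fun i _ => ?_
    exact mul_le_mul_of_nonneg_left (hK.le_one i 1) (by positivity)
  have h4 : ∑ i, (wv i : ℝ) * 1 = 292 := by
    unfold wv
    simp [Fin.sum_univ_succ]
    norm_num
  linarith

theorem weight_diag {d : ℕ} (A : (Fin (d + 1) → Fin 2) → Bool) (K : (Fin (d + 1) → Fin 2) → ℝ)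
    (hK : IsPolydiagonal A K) : weight K = 2 := by
  have h0 := hK.2 0 0
  have h1 := hK.2 0 1
  unfold weight
  have h2 := sum_filter_add_sum_filter_not univ (fun α : Fin (d + 1) → Fin 2 => α 0 = 0) K
  have h3 : univ.filter (fun α : Fin (d + 1) → Fin 2 => ¬ α 0 = 0) =
      univ.filter (fun α : Fin (d + 1) → Fin 2 => α 0 = 1) := by
    ext α
    simp only [mem_filter, mem_univ, true_and]
    rcases two_cases (α 0) with h | h <;> rw [h] <;> simp
  rw [h3, h0, h1] at h2
  linarith

theorem co_ne {d : ℕ} (α : Fin (d + 1) → Fin 2) : co α ≠ α := by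
  intro h
  have := congrFun h 0
  unfold co at this
  rcases two_cases (α 0) with h | h <;> rw [h] at this <;> simp at this

/-- the extremality of the matrix -/
theorem extremal : Extremal A := by
  refine ⟨?_, ?_⟩
  · rintro ⟨K, hK⟩
    have h1 := key K hK.1
    have h2 := weight_diag A K hK
    rw [h2] at h1
    norm_num at h1
  · intro α hα
    have hco := A_co α hα
    let K : (Fin 10 → Fin 2) → ℝ := fun β => (if β = α then 1 else 0) + if β = co α then 1 else 0
    have hsum : ∀ (i : Fin 10) (j : Fin 2),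
        ∑ β ∈ univ.filter (fun β : Fin 10 → Fin 2 => β i = j), K β = 1 := by
      intro i j
      simp only [K]
      rw [sum_add_distrib, sum_ite_eq', sum_ite_eq']
      simp only [mem_filter, mem_univ, true_and]
      unfold co
      rcases two_cases (α i) with h | h <;> rcases two_cases j with h' | h' <;> rw [h, h'] <;> simp
    refine ⟨K, ⟨?_, ?_, ?_⟩, hsum⟩
    · intro β
      simp only [K]
      positivity
    · intro β hβ
      have h1 : β ≠ α := by
        intro h
        rw [h, Function.update_self] at hβ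
        exact Bool.noConfusion hβ
      rw [Function.update_of_ne h1] at hβ
      have h2 : β ≠ co α := by
        intro h
        rw [h, hco] at hβ
        exact Bool.noConfusion hβ
      simp only [K]
      rw [if_neg h1, if_neg h2, add_zero]
    · intro i j
      rw [hsum]

/-- the coalitions carrying the optimal polyplex -/
def S : Fin 10 → (Fin 10 → Fin 2) :=
  ![![1, 0, 1, 0, 1, 0, 1, 0, 0, 0],
    ![0, 0, 1, 1, 1, 0, 1, 1, 0, 0],
    ![1, 0, 0, 1, 1, 0, 0, 1, 1, 0],
    ![0, 1, 0, 1, 1, 0, 1, 0, 1, 0],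
    ![1, 0, 0, 0, 1, 1, 1, 1, 0, 1],
    ![1, 1, 0, 1, 0, 0, 0, 0, 0, 1],
    ![0, 0, 1, 1, 1, 1, 0, 0, 0, 0],
    ![0, 1, 1, 0, 0, 1, 0, 1, 1, 0],
    ![0, 0, 1, 1, 1, 0, 1, 0, 1, 1],
    ![1, 0, 0, 1, 0, 1, 1, 0, 1, 0]]

/-- the numerators of the optimal polyplex -/
def xv : Fin 10 → ℕ := ![17, 12, 7, 15, 53, 57, 6, 75, 37, 13]

/-- the optimal polyplex -/
noncomputable def K0 : (Fin 10 → Fin 2) → ℝ := fun α => ∑ s, if α = S s then (xv s : ℝ) / 147 else 0

theorem K0_sum (i : Fin 10) (j : Fin 2) :
    ∑ α ∈ univ.filter (fun α : Fin 10 → Fin 2 => α i = j), K0 α =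
      ((∑ s, if S s i = j then xv s else 0 : ℕ) : ℝ) / 147 := by
  unfold K0
  rw [sum_comm]
  push_cast
  rw [sum_div]
  refine sum_congr rfl fun s _ => ?_
  rw [sum_ite_eq']
  simp only [mem_filter, mem_univ, true_and]
  split_ifs <;> simp

theorem S_sum : ∀ (i : Fin 10) (j : Fin 2), (∑ s, if S s i = j then xv s else 0 : ℕ) ≤ 147 := by
  decide

theorem S_win : ∀ s : Fin 10, A (S s) = true := by
  decide

theorem K0_weight : weight K0 = 292 / 147 := by
  unfold weight K0
  rw [sum_comm]
  have : ∀ s : Fin 10, ∑ α : Fin 10 → Fin 2, (if α = S s then (xv s : ℝ) / 147 else 0) =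
      (xv s : ℝ) / 147 := by
    intro s
    rw [sum_ite_eq']
    simp
  rw [sum_congr rfl (fun s _ => this s), ← sum_div]
  have h : ∑ s, (xv s : ℝ) = ((∑ s, xv s : ℕ) : ℝ) := by push_cast; rfl
  rw [h]
  have h2 : ∑ s, xv s = 292 := by decide
  rw [h2]
  norm_num

theorem K0_polyplex : IsPolyplex A K0 := by
  refine ⟨?_, ?_, ?_⟩
  · intro α
    unfold K0
    refine sum_nonneg fun s _ => ?_
    split_ifs <;> positivity
  · intro α hα
    unfold K0
    refine sum_eq_zero fun s _ => ?_
    rw [if_neg]
    intro h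
    rw [h, S_win s] at hα
    exact Bool.noConfusion hα
  · intro i j
    rw [K0_sum]
    have h := S_sum i j
    have h2 : ((∑ s, if S s i = j then xv s else 0 : ℕ) : ℝ) ≤ 147 := by exact_mod_cast h
    rw [div_le_one (by norm_num)]
    exact h2

/-- the deficiency of the matrix -/
theorem deficiency_eq : deficiency A = 2 / 147 := by
  have h : IsGreatest {w : ℝ | ∃ K, IsPolyplex A K ∧ weight K = w} (292 / 147) := by
    refine ⟨⟨K0, K0_polyplex, K0_weight⟩, ?_⟩
    rintro w ⟨K, hK, rfl⟩
    have := key K hK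
    rw [le_div_iff₀ (by norm_num)]
    linarith
  unfold deficiency
  rw [h.csSup_eq]
  norm_num

/-- There is an extremal `10`-dimensional (0,1)-matrix of order `2` whose deficiency equals
`2/147`; in particular its deficiency is not the reciprocal of a positive integer. -/
theorem result : ∃ A : (Fin 10 → Fin 2) → Bool, Extremal A ∧ deficiency A = 2 / 147 ∧
    ∀ m : ℕ, 0 < m → deficiency A ≠ 1 / (m : ℝ) := by
  refine ⟨A, extremal, deficiency_eq, ?_⟩
  intro m hm h
  rw [deficiency_eq] at h
  have hm' : (m : ℝ) ≠ 0 := by exact_mod_cast hm.ne'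
  rw [div_eq_div_iff (by norm_num) hm'] at h
  have h2 : 2 * m = 1 * 147 := by exact_mod_cast h
  omega

end Pool.Agent.Results.MP_1f9c83_co.DeficiencyNotReciprocal
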